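import Pool.Agent.Helper18.SG.Goals2
import Pool.Agent.Helper43.Gm.Main2

set_option autoImplicit false

namespace Pool.Agent.Helper8.SG

open Finset Pool.Agent.Helper18.SG
open Helper18.Cusp (Red rr YB kap GoodFor Concl)

theorem goalT6 (hT4 : GoalT4) (hT5 : GoalT5) : GoalT6 := by
  intro s m d hm hs hd h
  rcases Nat.lt_or_ge (∑ i ∈ Finset.range 9, m i) (3 * d) with hlt | hge
  · rcases Nat.lt_or_ge (m 9) 2 with h9 | h9
    · obtain ⟨hsum, hR⟩ := Helper18.Cusp.red_tr hm hd (j := 9) (by norm_num) le_rfl hlt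
      exact Helper18.Cusp.cubic_finish s m d 9 hm hs le_rfl hR
        (Helper18.Tw.goodFor_simple hm hs (by omega) _)
    · have hroom : 216 * m 9 ^ 3 + 108 * m 9 ^ 2 + ∑ i ∈ range 9, (m i + 1).choose 2 ≤ (d + 2).choose 2 →
          Concl s m d := by
        intro hr
        by_cases hc : (m 0 - (2 * m 9 + 1)) + 3 * (2 * m 9 + 1) ≤ d
        · exact hT4 s m d hm hs hd hlt h9 hc hr
        · by_cases h0 : 2 * m 9 + 1 ≤ m 0
          · exact hT5 s m d hm hs hd h9 (by omega) hr
          · exfalso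
            have hd6 : d + 2 ≤ 6 * m 9 + 4 := by omega
            have h1 : (d + 2).choose 2 ≤ (6 * m 9 + 4).choose 2 := Nat.choose_le_choose 2 hd6
            have h2 : (6 * m 9 + 4).choose 2 = (3 * m 9 + 2) * (6 * m 9 + 3) := by
              rw [Nat.choose_two_right]
              have : (6 * m 9 + 4) * (6 * m 9 + 4 - 1) = (3 * m 9 + 2) * (6 * m 9 + 3) * 2 := by
                rw [show 6 * m 9 + 4 - 1 = 6 * m 9 + 3 by omega]; ring
              rw [this, Nat.mul_div_cancel _ (by norm_num)]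
            have h3 : (3 * m 9 + 2) * (6 * m 9 + 3) < 216 * m 9 ^ 3 + 108 * m 9 ^ 2 := by
              nlinarith [Nat.mul_le_mul h9 h9, Nat.zero_le (m 9 ^ 3)]
            have h4 : 216 * m 9 ^ 3 + 108 * m 9 ^ 2 ≤ (d + 2).choose 2 :=
              (Nat.le_add_right _ _).trans hr
            omega
      rcases h with h | h | h
      · omega
      · exact hroom h
      · by_cases hr : 216 * m 9 ^ 3 + 108 * m 9 ^ 2 + ∑ i ∈ range 9, (m i + 1).choose 2 ≤ (d + 2).choose 2
        · exact hroom hr
        · apply Pool.Agent.Helper43.Gm.main_reduced s m d hm hs hd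
          right
          have hs9 : 9 ≤ s := by
            by_contra hcon
            have := hs 9 (by omega)
            omega
          have hsum : ∑ i : Fin s, ((m (i : ℕ) + 1).choose 2 : ℤ)
              = ((∑ i ∈ range 9, (m i + 1).choose 2 + ∑ i ∈ Ico 9 s, (m i + 1).choose 2 : ℕ) : ℤ) := by
            rw [Finset.sum_range_add_sum_Ico _ hs9, Finset.sum_range]
            push_cast
            rfl
          rw [hsum]
          rw [not_le] at hr
          have e1 : ((d + 2).choose 2 : ℤ) < 216 * (m 9 : ℤ) ^ 3 + 108 * (m 9 : ℤ) ^ 2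
              + ((∑ i ∈ range 9, (m i + 1).choose 2 : ℕ) : ℤ) := by exact_mod_cast hr
          have e2 : 216 * (m 9 : ℤ) ^ 3 + 123 * (m 9 : ℤ) ^ 2
              ≤ ((∑ i ∈ Ico 9 s, (m i + 1).choose 2 : ℕ) : ℤ) := by exact_mod_cast h
          rw [Nat.cast_add]
          linarith
  · obtain ⟨z, F, -, hU⟩ := Pool.Agent.Helper43.Nod.hex (m 8 + 1) (by omega)
    exact Helper18.Slab.main_zero hm hs hd (Nat.lt_succ_self _) hU hge

end Pool.Agent.Helper8.SG
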