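import Pool.Agent.Helper52.SG.Goals

/-! Packet LGS of project SG: `LG` passes to groups which embed. -/

namespace Pool.Agent.Helper8.SG.LGS

open Subgroup Pool.H83Shunkov Pool.Agent.Helper29.SH Pool.Agent.Helper52.SG

theorem PG_equiv {A B : Type} [Group A] [Group B] (e : A ≃* B) (h : PG A) : PG B := by
  classical
  obtain ⟨S, hS, hp⟩ := h
  refine ⟨S.image e, ?_, ?_⟩
  · have h1 := MonoidHom.map_closure e.toMonoidHom (S : Set A)
    rw [hS, ← MonoidHom.range_eq_map, MonoidHom.range_eq_top.2 e.surjective] at h1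
    rw [Finset.coe_image]
    exact h1.symm
  · intro s hs
    obtain ⟨a, ha, rfl⟩ := Finset.mem_image.1 hs
    exact (hp a ha).map e.toMonoidHom e.surjective

theorem IQ_equiv {A B : Type} [Group A] [Group B] (e : A ≃* B) (h : IQ B) : IQ A := by
  obtain ⟨R, hR, hinf, hrf⟩ := h
  have hR' : (R.comap e.toMonoidHom).Normal := hR.comap e.toMonoidHom
  refine ⟨R.comap e.toMonoidHom, hR', ?_, ?_⟩
  · refine Infinite.of_surjective
      (QuotientGroup.map (R.comap e.toMonoidHom) R e.toMonoidHom le_rfl) ?_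
    intro y
    obtain ⟨b, rfl⟩ := QuotientGroup.mk_surjective y
    obtain ⟨a, rfl⟩ := e.surjective b
    exact ⟨(a : A ⧸ (R.comap e.toMonoidHom)), rfl⟩
  · intro x hx
    obtain ⟨M, hM1, hM2, hM3, hM4⟩ := hrf (e x) hx
    refine ⟨M.comap e.toMonoidHom, hM1.comap e.toMonoidHom, ?_, ?_, ?_⟩
    · constructor
      rw [Subgroup.index_comap_of_surjective M (f := e.toMonoidHom) e.surjective]
      exact hM2.index_ne_zero
    · exact Subgroup.comap_mono hM3
    · exact hM4

theorem t : S_LGS := by
  intro G K _ _ f hf hG L hL hinf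
  have e : L ≃* L.map f := L.equivMapOfInjective f hf
  have h1 : Infinite (L.map f) := Infinite.of_injective e e.injective
  exact IQ_equiv e (hG (L.map f) (PG_equiv e hL) h1)

end Pool.Agent.Helper8.SG.LGS
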